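import Pool.Agent.H758.SF.Defs

/-!
Cancellation of symmetric parts: if a plumbing graph is symmetric and a union `D` of components is
symmetric, then the union of the other components is symmetric.
-/

set_option autoImplicit false

namespace Pool.Agent.H758.SF.Plumbing

variable {X : Type} {F : Plumbing X}

/-- The dihedral action. -/
structure Dihedral (F : Plumbing X) (D : Set X) (ρ t : X → X) (p : ℤ → X → X) : Prop where
  zero : ∀ x, p 0 x = x
  add : ∀ k l x, p k (p l x) = p (k + l) x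
  one : ∀ x, p 1 x = ρ (t x)
  conj : ∀ k x, p k (t x) = t (p (-k) x)
  adj : ∀ k x y, F.graph.Adj x y → F.graph.Adj (p k x) (p k y)
  invol : ∀ x, t (t x) = x
  mem : ∀ x, t x ∈ D ↔ x ∈ D
  fix : ∀ x, x ∉ D → t x = x
  sym : ∀ x, x ∈ D → F.SymAt t x
  per : ∀ x, x ∉ D → ∃ n : ℕ, 0 < n ∧ p n x ∉ D

theorem exists_dihedral [Finite X] (ρ τ : X → X) (D : Set X) (hρ : ∀ x, F.SymAt ρ x)
    (hD : ∀ x ∈ D, ∀ y, F.graph.Adj x y → y ∈ D) (hτ : ∀ x ∈ D, τ x ∈ D ∧ F.SymAt τ x) :
    ∃ t p, Dihedral F D ρ t p := by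
  classical
  let t0 : X → X := fun x => if x ∈ D then τ x else x
  have h1 : ∀ x, x ∈ D → t0 x = τ x := fun x hx => if_pos hx
  have h2 : ∀ x, x ∉ D → t0 x = x := fun x hx => if_neg hx
  have h3 : ∀ x, t0 x ∈ D ↔ x ∈ D := by
    intro x
    by_cases hx : x ∈ D
    · rw [h1 x hx]
      exact ⟨fun _ => hx, fun _ => (hτ x hx).1⟩
    · rw [h2 x hx]
  have h4 : ∀ x, t0 (t0 x) = x := by
    intro x
    by_cases hx : x ∈ D
    · rw [h1 _ ((h3 x).2 hx), h1 x hx, (hτ x hx).2.invol]
    · rw [h2 x hx, h2 x hx]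
  have h5 : ∀ x y, F.graph.Adj x y → F.graph.Adj (t0 x) (t0 y) := by
    intro x y hxy
    by_cases hx : x ∈ D
    · rw [h1 x hx, h1 y (hD x hx y hxy)]
      exact (hτ x hx).2.adj y hxy
    · rw [h2 x hx, h2 y fun hy => hx (hD y hy x hxy.symm)]
      exact hxy
  let r : Equiv.Perm X := Function.Involutive.toPerm ρ fun x => (hρ x).invol
  let t : Equiv.Perm X := Function.Involutive.toPerm t0 h4
  let P : Equiv.Perm X := r * t
  have ht : t⁻¹ = t := rfl
  have hr : r⁻¹ = r := rfl
  have hconj : ∀ k : ℤ, t * P ^ k * t⁻¹ = P ^ (-k) := by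
    intro k
    rw [← conj_zpow, zpow_neg, ← inv_zpow]
    congr 1
    simp only [P, mul_inv_rev, ht, hr]
    have htt : t * t = 1 := by
      nth_rewrite 1 [← ht]
      exact inv_mul_cancel t
    rw [mul_assoc, mul_assoc, htt, mul_one]
  have hconj' : ∀ (k : ℤ) (x : X), (P ^ k) (t0 x) = t0 ((P ^ (-k)) x) := by
    intro k x
    have h6 := hconj (-k)
    rw [neg_neg] at h6
    have h7 : (P ^ k) (t0 x) = (t * P ^ (-k) * t⁻¹) (t0 x) := by rw [h6]
    rw [h7, ht]
    change t0 ((P ^ (-k)) (t0 (t0 x))) = _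
    rw [h4]
  have hadj1 : ∀ x y, F.graph.Adj x y → F.graph.Adj (P x) (P y) := fun x y hxy =>
    (hρ _).adj _ (h5 x y hxy)
  have hadj2 : ∀ x y, F.graph.Adj x y → F.graph.Adj (P⁻¹ x) (P⁻¹ y) := by
    intro x y hxy
    have h6 : P⁻¹ = t * r := by rw [mul_inv_rev, ht, hr]
    rw [h6]
    exact h5 _ _ ((hρ _).adj _ hxy)
  have hadj3 : ∀ (Q : Equiv.Perm X), (∀ x y, F.graph.Adj x y → F.graph.Adj (Q x) (Q y)) →
      ∀ (n : ℕ) x y, F.graph.Adj x y → F.graph.Adj ((Q ^ n) x) ((Q ^ n) y) := by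
    intro Q hQ n
    induction n with
    | zero => intro x y hxy; exact hxy
    | succ n ih =>
      intro x y hxy
      rw [pow_succ, Equiv.Perm.mul_apply, Equiv.Perm.mul_apply]
      exact ih _ _ (hQ _ _ hxy)
  refine ⟨t0, fun k x => (P ^ k) x, ⟨fun x => rfl, fun k l x => ?_, fun x => ?_, hconj',
    fun k x y hxy => ?_, h4, h3, h2, fun x hx => ?_, fun x hx => ?_⟩⟩
  · change (P ^ k) ((P ^ l) x) = (P ^ (k + l)) x
    rw [zpow_add, Equiv.Perm.mul_apply]
  · change (P ^ (1 : ℤ)) x = _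
    rw [zpow_one]
    rfl
  · change F.graph.Adj ((P ^ k) x) ((P ^ k) y)
    obtain ⟨n, rfl | rfl⟩ := k.eq_nat_or_neg
    · rw [zpow_natCast]
      exact hadj3 P hadj1 n x y hxy
    · rw [zpow_neg, zpow_natCast, ← inv_pow]
      exact hadj3 P⁻¹ hadj2 n x y hxy
  · obtain ⟨g1, g2⟩ := hτ x hx
    refine ⟨h4 x, ?_, h5 x, fun h => ?_, fun h => ?_⟩
    · rw [h1 x hx]; exact g2.color
    · rw [h1 x hx] at h ⊢; exact g2.flip h
    · rw [h1 x hx] at h ⊢; exact g2.same h
  · refine ⟨orderOf P, orderOf_pos P, ?_⟩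
    change (P ^ ((orderOf P : ℕ) : ℤ)) x ∉ D
    rw [zpow_natCast, pow_orderOf_eq_one]
    exact hx

/-- **Cancellation.** -/
theorem cancel [Finite X] (ρ τ : X → X) (D : Set X) (hρ : ∀ x, F.SymAt ρ x)
    (hD : ∀ x ∈ D, ∀ y, F.graph.Adj x y → y ∈ D) (hτ : ∀ x ∈ D, τ x ∈ D ∧ F.SymAt τ x) :
    ∃ ρ' : X → X, ∀ x, x ∉ D → ρ' x ∉ D ∧ F.SymAt ρ' x := by
  classical
  obtain ⟨t, p, h⟩ := exists_dihedral ρ τ D hρ hD hτ
  have hD' : ∀ x y, F.graph.Adj x y → (x ∈ D ↔ y ∈ D) := fun x y hxy =>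
    ⟨fun hx => hD x hx y hxy, fun hy => hD y hy x hxy.symm⟩
  have hN : ∀ x, ∃ n : ℕ, x ∉ D → (0 < n ∧ p n x ∉ D ∧ ∀ k : ℕ, 0 < k → k < n → p k x ∈ D) := by
    intro x
    by_cases hx : x ∈ D
    · exact ⟨0, fun h' => absurd hx h'⟩
    · refine ⟨Nat.find (h.per x hx), fun _ => ?_⟩
      have h1 := Nat.find_spec (h.per x hx)
      refine ⟨h1.1, h1.2, fun k hk hk' => ?_⟩
      by_contra hcon
      exact Nat.find_min (h.per x hx) hk' ⟨hk, hcon⟩
  choose N hN using hN
  have uniq : ∀ x, x ∉ D → ∀ n : ℕ, 0 < n → p n x ∉ D →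
      (∀ k : ℕ, 0 < k → k < n → p k x ∈ D) → N x = n := by
    intro x hx n h1 h2 h3
    obtain ⟨h4, h5, h6⟩ := hN x hx
    rcases lt_trichotomy (N x) n with h7 | h7 | h7
    · exact absurd (h3 _ h4 h7) h5
    · exact h7
    · exact absurd (h6 _ h1 h7) h2
  -- the return
  have hneg : ∀ x, x ∉ D → ∀ k, p (-k) x = t (p k x) := by
    intro x hx k
    have := h.conj (-k) x
    rw [h.fix x hx, neg_neg] at this
    exact this
  have hret : ∀ x, x ∉ D → ∀ k : ℤ, p k (p (N x) x) = t (p (N x - k) x) := by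
    intro x hx k
    obtain ⟨h4, h5, h6⟩ := hN x hx
    have h1 := h.conj k (p (N x) x)
    rw [h.fix _ h5] at h1
    rw [h1, h.add]
    congr 2
    ring
  have hNy : ∀ x, x ∉ D → N (p (N x) x) = N x := by
    intro x hx
    obtain ⟨h4, h5, h6⟩ := hN x hx
    refine uniq _ h5 _ h4 ?_ fun k hk hk' => ?_
    · rw [hret x hx, sub_self, h.zero, h.fix x hx]
      exact hx
    · rw [hret x hx, h.mem]
      have h7 := h6 (N x - k) (by omega) (by omega)
      rwa [Nat.cast_sub hk'.le] at h7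
  have hadjN : ∀ x, x ∉ D → ∀ u, F.graph.Adj x u → N u = N x := by
    intro x hx u hu
    obtain ⟨h4, h5, h6⟩ := hN x hx
    have hu' : u ∉ D := fun h' => hx ((hD' _ _ hu).2 h')
    refine uniq u hu' _ h4 ?_ fun k hk hk' => ?_
    · rw [← hD' _ _ (h.adj (N x) x u hu)]
      exact h5
    · rw [← hD' _ _ (h.adj k x u hu)]
      exact h6 k hk hk'
  -- adjacency determines the length
  have L0 : ∀ x, x ∉ D → ∀ m : ℕ, m < 2 * N x → F.graph.Adj x (p m x) → N x = m := by
    intro x hx m hm hadj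
    obtain ⟨h4, h5, h6⟩ := hN x hx
    have hm0 : 0 < m := by
      rcases Nat.eq_zero_or_pos m with h0 | h0
      · subst h0
        rw [Nat.cast_zero, h.zero] at hadj
        exact absurd hadj (F.graph.loopless.irrefl x)
      · exact h0
    have hmD : p m x ∉ D := fun h' => hx ((hD' _ _ hadj).2 h')
    rcases lt_trichotomy (N x) m with h7 | h7 | h7
    · exfalso
      have h8 := h.adj (-((m - N x : ℕ) : ℤ)) _ _ hadj
      rw [h.add, hneg x hx] at h8
      have e1 : -((m - N x : ℕ) : ℤ) + m = N x := by rw [Nat.cast_sub h7.le]; ring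
      rw [e1] at h8
      have h9 : t (p ((m - N x : ℕ) : ℤ) x) ∈ D := by
        rw [h.mem]
        exact h6 _ (by omega) (by omega)
      exact h5 ((hD' _ _ h8).1 h9)
    · exact h7
    · exact absurd (h6 m hm0 h7) hmD
  -- flips
  have LA : ∀ x, x ∉ D → ∀ k : ℕ, F.graph.Adj (t (p k x)) (ρ (t (p k x))) →
      F.graph.Adj x (p (2 * k + 1 : ℕ) x) := by
    intro x hx k hk
    rw [← h.one] at hk
    have h1 := h.adj k _ _ hk
    have e1 : p k (t (p k x)) = x := by
      rw [h.conj, h.add, neg_add_cancel, h.zero, h.fix x hx]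
    have e2 : p k (p 1 (p k x)) = p (2 * k + 1 : ℕ) x := by
      rw [h.add, h.add]
      congr 1
      push_cast
      ring
    rwa [e1, e2] at h1
  have LB : ∀ x, x ∉ D → ∀ k : ℕ, F.graph.Adj (p k x) (t (p k x)) →
      F.graph.Adj x (p (2 * k : ℕ) x) := by
    intro x hx k hk
    have h1 := h.adj k _ _ hk
    rw [h.conj, h.add, h.add, neg_add_cancel, h.zero, h.fix x hx] at h1
    convert h1.symm using 2
    push_cast
    ring
  have hwr : ∀ z, ¬ F.graph.Adj z (ρ z) → F.wt (ρ z) = F.wt z := fun z hz => (hρ z).same hz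
  have hwt : ∀ z, ¬ F.graph.Adj z (t z) → F.wt (t z) = F.wt z := by
    intro z hz
    by_cases hzD : z ∈ D
    · exact (h.sym z hzD).same hz
    · rw [h.fix z hzD]
  have hsucc : ∀ (k : ℕ) x, p ((k + 1 : ℕ) : ℤ) x = ρ (t (p k x)) := by
    intro k x
    rw [← h.one, h.add]
    congr 1
    push_cast
    ring
  have hstep : ∀ x (k : ℕ), ¬ F.graph.Adj (t (p k x)) (ρ (t (p k x))) →
      ¬ F.graph.Adj (p k x) (t (p k x)) → F.wt (p ((k + 1 : ℕ) : ℤ) x) = F.wt (p k x) := by
    intro x k h1 h2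
    rw [hsucc, hwr _ h1, hwt _ h2]
  have hhalf : ∀ x, x ∉ D → ∀ k : ℕ, 2 * k ≤ N x → F.wt (p k x) = F.wt x := by
    intro x hx k
    induction k with
    | zero => intro _; rw [Nat.cast_zero, h.zero]
    | succ k ih =>
      intro hk
      rw [hstep x k, ih (by omega)]
      · intro hA
        have := L0 x hx _ (by omega) (LA x hx k hA)
        omega
      · intro hB
        have := L0 x hx _ (by omega) (LB x hx k hB)
        omega
  have hcol : ∀ x, x ∉ D → ∀ k : ℕ, k < N x → F.col (p ((k + 1 : ℕ) : ℤ) x) ≠ F.col x := by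
    intro x hx k
    obtain ⟨h4, h5, h6⟩ := hN x hx
    induction k with
    | zero =>
      intro _
      rw [hsucc, Nat.cast_zero, h.zero, h.fix x hx]
      exact (hρ x).color
    | succ k ih =>
      intro hk
      have h7 := ih (by omega)
      rw [hsucc]
      have h8 := (hρ (t (p ((k + 1 : ℕ) : ℤ) x))).color
      have h9 := (h.sym _ (h6 (k + 1) (by omega) hk)).color
      have hbool : ∀ a b c d : Bool, a ≠ b → b ≠ c → c ≠ d → a ≠ d := by decide
      exact hbool _ _ _ _ h8 h9 h7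
  refine ⟨fun x => p (N x) x, fun x hx => ?_⟩
  obtain ⟨h4, h5, h6⟩ := hN x hx
  refine ⟨h5, ?_, ?_, fun u hu => ?_, fun had => ?_, fun had => ?_⟩
  · change p (N (p (N x) x)) (p (N x) x) = x
    rw [hNy x hx, hret x hx, sub_self, h.zero, h.fix x hx]
  · have := hcol x hx (N x - 1) (by omega)
    rwa [Nat.sub_add_cancel h4] at this
  · change F.graph.Adj (p (N x) x) (p (N u) u)
    rw [hadjN x hx u hu]
    exact h.adj _ _ _ hu
  · -- a flip
    change F.graph.Adj x (p (N x) x) at had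
    change F.wt x = F.wt (p (N x) x) + 2 ∨ F.wt (p (N x) x) = F.wt x + 2
    obtain ⟨m, hm⟩ : ∃ m, N x = 2 * m ∨ N x = 2 * m + 1 := ⟨N x / 2, by omega⟩
    have hNy' := hNy x hx
    rcases hm with hm | hm
    · -- even
      have h7 := h.adj (-(m : ℤ)) _ _ had
      rw [h.add, hneg x hx] at h7
      have e1 : -(m : ℤ) + (N x : ℤ) = m := by rw [hm]; push_cast; ring
      rw [e1] at h7
      have hmD := h6 m (by omega) (by omega)
      have h8 := (h.sym _ hmD).flip h7.symm
      have h9 := hhalf x hx m (by omega)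
      have h10 := hhalf _ h5 m (by rw [hNy']; omega)
      rw [hret x hx] at h10
      have e2 : (N x : ℤ) - m = m := by rw [hm]; push_cast; ring
      rw [e2] at h10
      rw [h9, h10] at h8
      exact h8
    · -- odd
      have h7 := h.adj (-(m : ℤ)) _ _ had
      rw [h.add, hneg x hx] at h7
      have e1 : -(m : ℤ) + (N x : ℤ) = ((m + 1 : ℕ) : ℤ) := by rw [hm]; push_cast; ring
      rw [e1, hsucc] at h7
      have h8 := (hρ _).flip h7
      have h9 := hhalf x hx m (by omega)
      have h10 := hhalf _ h5 m (by rw [hNy']; omega)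
      rw [hret x hx] at h10
      have e2 : (N x : ℤ) - m = ((m + 1 : ℕ) : ℤ) := by rw [hm]; push_cast; ring
      rw [e2] at h10
      have h11 : F.wt (t (p m x)) = F.wt (p m x) := hwt _ fun hB => by
        have := L0 x hx _ (by omega) (LB x hx m hB)
        omega
      have h12 : F.wt (t (p ((m + 1 : ℕ) : ℤ) x)) = F.wt (p ((m + 1 : ℕ) : ℤ) x) := by
        refine hwt _ fun hB => ?_
        have h13 := LB x hx (m + 1) hB
        rcases Nat.lt_or_ge (2 * (m + 1)) (2 * N x) with h14 | h14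
        · have := L0 x hx _ h14 h13
          omega
        · -- `m = 0`
          have hm0 : m = 0 := by omega
          subst hm0
          have h15 : p ((0 + 1 : ℕ) : ℤ) x ∉ D := by
            have e3 : ((0 + 1 : ℕ) : ℤ) = (N x : ℤ) := by rw [hm]
            rw [e3]
            exact h5
          rw [h.fix _ h15] at hB
          exact F.graph.loopless.irrefl _ hB
      rw [← hsucc, ← h12, h10, h11, h9] at h8
      exact h8
  · change ¬ F.graph.Adj x (p (N x) x) at had
    change F.wt (p (N x) x) = F.wt x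
    have hall : ∀ k : ℕ, k ≤ N x → F.wt (p k x) = F.wt x := by
      intro k
      induction k with
      | zero => intro _; rw [Nat.cast_zero, h.zero]
      | succ k ih =>
        intro hk
        rw [hstep x k, ih (by omega)]
        · intro hA
          have h7 := LA x hx k hA
          have := L0 x hx _ (by omega) h7
          rw [← this] at h7
          exact had h7
        · intro hB
          have h7 := LB x hx k hB
          have := L0 x hx _ (by omega) h7
          rw [← this] at h7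
          exact had h7
    exact hall _ le_rfl

end Pool.Agent.H758.SF.Plumbing
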