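import Pool.Agent.H758.SR.Defs

/-!
# Sums of alternating arborescent knots: definitions

Plumbing forests, the lattices of cuts and flows of the corresponding alternating links, the slice
condition given by Donaldson's theorem, symmetric forests.
-/

set_option autoImplicit false

namespace Pool.Agent.H758.SF

open Finset Matrix
open Pool.Agent.H758.SR (rank IsIsometry Extends)

/-- A graph with coloured vertices and a number of crossings for each vertex. If it is a forest with
a proper colouring it stands for the alternating link `K(F)` obtained by plumbing bands along `F`: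
the vertex `v` is a twist region with `F.wt v` crossings, negative half twists if `F.col v = false`
and positive ones if `F.col v = true`. -/
structure Plumbing (V : Type) where
  /-- the graph -/
  graph : SimpleGraph V
  /-- the colour (sign) of a vertex -/
  col : V → Bool
  /-- the number of crossings -/
  wt : V → ℕ

namespace Plumbing

variable {V : Type}

/-- The graph is a forest, its edges join vertices of different colours, all twist regions have at
least three crossings, and isolated vertices do not have exactly four. -/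
structure IsForest (F : Plumbing V) : Prop where
  acyclic : F.graph.IsAcyclic
  proper : ∀ u v, F.graph.Adj u v → F.col u ≠ F.col v
  three : ∀ v, 3 ≤ F.wt v
  four : ∀ v, F.wt v = 4 → ∃ u, F.graph.Adj v u

open scoped Classical in
/-- The sum of the values of `w` at the neighbours of `v`. -/
noncomputable def nsum [Fintype V] (F : Plumbing V) (w : V → ℤ) (v : V) : ℤ :=
  ∑ u, if F.graph.Adj v u then w u else 0

/-- The crossings. -/
abbrev Crossing (F : Plumbing V) : Type := Σ v, Fin (F.wt v)

/-- `x` is a cut: for some `w`, it is constant, with value `w v`, on the regions `v` of colour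
`true`, and has the sum `F.nsum w v` on the regions `v` of colour `false`. -/
def IsCut [Fintype V] (F : Plumbing V) (x : F.Crossing → ℤ) : Prop :=
  ∃ w : V → ℤ, ∀ v, (F.col v = true → ∀ k, x ⟨v, k⟩ = w v) ∧
    (F.col v = false → ∑ k, x ⟨v, k⟩ = F.nsum w v)

/-- `x` is a flow: for some `y`, it is constant, with value `y v`, on the regions `v` of colour
`false`, and has the sum `- F.nsum y v` on the regions `v` of colour `true`. -/
def IsFlow [Fintype V] (F : Plumbing V) (x : F.Crossing → ℤ) : Prop :=
  ∃ y : V → ℤ, ∀ v, (F.col v = false → ∀ k, x ⟨v, k⟩ = y v) ∧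
    (F.col v = true → ∑ k, x ⟨v, k⟩ = - F.nsum y v)

section

variable [Fintype V] {F : Plumbing V}

theorem nsum_add (F : Plumbing V) (w w' : V → ℤ) (v : V) :
    F.nsum (w + w') v = F.nsum w v + F.nsum w' v := by
  classical
  rw [nsum, nsum, nsum, ← sum_add_distrib]
  refine sum_congr rfl fun u _ => ?_
  split_ifs <;> simp

theorem nsum_zero (F : Plumbing V) (v : V) : F.nsum 0 v = 0 := by
  classical
  rw [nsum]
  exact sum_eq_zero fun u _ => by split_ifs <;> rfl

theorem nsum_smul (F : Plumbing V) (c : ℤ) (w : V → ℤ) (v : V) :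
    F.nsum (c • w) v = c * F.nsum w v := by
  classical
  rw [nsum, nsum, mul_sum]
  refine sum_congr rfl fun u _ => ?_
  split_ifs <;> simp

theorem isCut_add {x x' : F.Crossing → ℤ} (h : F.IsCut x) (h' : F.IsCut x') :
    F.IsCut (x + x') := by
  obtain ⟨w, h⟩ := h
  obtain ⟨w', h'⟩ := h'
  refine ⟨w + w', fun v => ⟨fun hv k => ?_, fun hv => ?_⟩⟩
  · rw [Pi.add_apply, (h v).1 hv, (h' v).1 hv, Pi.add_apply]
  · simp only [Pi.add_apply, sum_add_distrib]
    rw [(h v).2 hv, (h' v).2 hv, nsum_add]

theorem isCut_zero : F.IsCut 0 :=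
  ⟨0, fun v => ⟨fun _ _ => rfl, fun _ => by rw [nsum_zero]; simp⟩⟩

theorem isCut_smul (c : ℤ) {x : F.Crossing → ℤ} (h : F.IsCut x) : F.IsCut (c • x) := by
  obtain ⟨w, h⟩ := h
  refine ⟨c • w, fun v => ⟨fun hv k => ?_, fun hv => ?_⟩⟩
  · rw [Pi.smul_apply, (h v).1 hv, Pi.smul_apply]
  · simp only [Pi.smul_apply, smul_eq_mul]
    rw [← mul_sum, (h v).2 hv, nsum_smul]

theorem isFlow_add {x x' : F.Crossing → ℤ} (h : F.IsFlow x) (h' : F.IsFlow x') :
    F.IsFlow (x + x') := by
  obtain ⟨w, h⟩ := h
  obtain ⟨w', h'⟩ := h'
  refine ⟨w + w', fun v => ⟨fun hv k => ?_, fun hv => ?_⟩⟩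
  · rw [Pi.add_apply, (h v).1 hv, (h' v).1 hv, Pi.add_apply]
  · simp only [Pi.add_apply, sum_add_distrib]
    rw [(h v).2 hv, (h' v).2 hv, nsum_add]
    ring

theorem isFlow_zero : F.IsFlow 0 :=
  ⟨0, fun v => ⟨fun _ _ => rfl, fun _ => by rw [nsum_zero]; simp⟩⟩

theorem isFlow_smul (c : ℤ) {x : F.Crossing → ℤ} (h : F.IsFlow x) : F.IsFlow (c • x) := by
  obtain ⟨w, h⟩ := h
  refine ⟨c • w, fun v => ⟨fun hv k => ?_, fun hv => ?_⟩⟩
  · rw [Pi.smul_apply, (h v).1 hv, Pi.smul_apply]
  · simp only [Pi.smul_apply, smul_eq_mul]
    rw [← mul_sum, (h v).2 hv, nsum_smul]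
    ring

end

/-- The lattice of cuts of the alternating link. -/
def cuts [Fintype V] (F : Plumbing V) : Submodule ℤ (F.Crossing → ℤ) where
  carrier := {x | F.IsCut x}
  add_mem' := isCut_add
  zero_mem' := isCut_zero
  smul_mem' c _ := isCut_smul c

/-- The lattice of flows of the alternating link. -/
def flows [Fintype V] (F : Plumbing V) : Submodule ℤ (F.Crossing → ℤ) where
  carrier := {x | F.IsFlow x}
  add_mem' := isFlow_add
  zero_mem' := isFlow_zero
  smul_mem' c _ := isFlow_smul c

/-- The condition imposed by Donaldson's theorem on a slice link: the lattices of cuts and of flows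
embed isometrically in the standard lattices of their ranks, and an integral function `z` on the
crossings defines on the lattice of cuts a functional which extends to the first standard lattice
if and only if it defines on the lattice of flows a functional which extends to the second one. -/
def LatticeSlice [Fintype V] (F : Plumbing V) : Prop :=
  ∃ (φ : (F.Crossing → ℤ) → Fin (rank F.cuts) → ℤ) (ψ : (F.Crossing → ℤ) → Fin (rank F.flows) → ℤ),
    IsIsometry F.cuts φ ∧ IsIsometry F.flows ψ ∧
      ∀ z, Extends F.cuts φ z ↔ Extends F.flows ψ z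

/-- `τ` is a symmetry of `F` at the vertex `v`: it is an involution, changes the colour and
preserves edges; if `τ` reverses the edge `{v, τ v}` then the numbers of crossings of its ends
differ by two, and if `v` and `τ v` are not adjacent then their numbers of crossings agree. -/
structure SymAt (F : Plumbing V) (τ : V → V) (v : V) : Prop where
  invol : τ (τ v) = v
  color : F.col (τ v) ≠ F.col v
  adj : ∀ u, F.graph.Adj v u → F.graph.Adj (τ v) (τ u)
  flip : F.graph.Adj v (τ v) → F.wt v = F.wt (τ v) + 2 ∨ F.wt (τ v) = F.wt v + 2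
  same : ¬ F.graph.Adj v (τ v) → F.wt (τ v) = F.wt v

/-- The plumbing graph is symmetric. -/
def IsSymmetric (F : Plumbing V) : Prop := ∃ τ : V → V, ∀ v, F.SymAt τ v

end Plumbing

end Pool.Agent.H758.SF
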