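import Pool.Agent.H758.SF.Sign
import Pool.Agent.H758.SR.Conv

/-!
The two descriptions of the lattices.
-/

set_option autoImplicit false
set_option linter.unusedSectionVars false

namespace Pool.Agent.H758.SF

open Finset Matrix
open Pool.Agent.H758.SR (rank IsIsometry Extends Cross SliceLattices Adm IsPairing)

section

variable {K K' : Type} [Fintype K] [Fintype K']

/-- two lattices with glued embeddings -/
def Glued (L M : Submodule ℤ (K → ℤ)) : Prop :=
  ∃ (φ : (K → ℤ) → Fin (rank L) → ℤ) (ψ : (K → ℤ) → Fin (rank M) → ℤ),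
    IsIsometry L φ ∧ IsIsometry M ψ ∧ ∀ z, Extends L φ z ↔ Extends M ψ z

/-- the reindexed lattice -/
def pull (e : K' ≃ K) (L : Submodule ℤ (K → ℤ)) : Submodule ℤ (K' → ℤ) :=
  L.map (LinearEquiv.funCongrLeft ℤ ℤ e).toLinearMap

theorem mem_pull (e : K' ≃ K) (L : Submodule ℤ (K → ℤ)) (x : K' → ℤ) :
    x ∈ pull e L ↔ x ∘ e.symm ∈ L := by
  rw [pull, Submodule.mem_map]
  constructor
  · rintro ⟨y, hy, rfl⟩
    convert hy using 1
    funext k
    simp [LinearEquiv.funCongrLeft]
  · intro h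
    refine ⟨x ∘ e.symm, h, ?_⟩
    funext k
    simp [LinearEquiv.funCongrLeft]

theorem rank_pull (e : K' ≃ K) (L : Submodule ℤ (K → ℤ)) : rank (pull e L) = rank L := by
  change Module.finrank ℤ (pull e L) = Module.finrank ℤ L
  exact LinearEquiv.finrank_map_eq (LinearEquiv.funCongrLeft ℤ ℤ e) L

theorem dot_comp (e : K' ≃ K) (x y : K' → ℤ) : (x ∘ e.symm) ⬝ᵥ (y ∘ e.symm) = x ⬝ᵥ y :=
  e.symm.sum_comp (fun k => x k * y k)

theorem dot_cast {m n : ℕ} (h : m = n) (x y : Fin n → ℤ) :
    (x ∘ Fin.cast h) ⬝ᵥ (y ∘ Fin.cast h) = x ⬝ᵥ y := by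
  subst h
  rfl

/-- transport of an embedding -/
noncomputable def tr (e : K' ≃ K) (L : Submodule ℤ (K → ℤ)) (φ : (K → ℤ) → Fin (rank L) → ℤ) :
    (K' → ℤ) → Fin (rank (pull e L)) → ℤ :=
  fun x => φ (x ∘ e.symm) ∘ Fin.cast (rank_pull e L)

theorem tr_isometry (e : K' ≃ K) (L : Submodule ℤ (K → ℤ)) (φ : (K → ℤ) → Fin (rank L) → ℤ)
    (h : IsIsometry L φ) : IsIsometry (pull e L) (tr e L φ) := by
  intro x hx y hy
  rw [mem_pull] at hx hy
  obtain ⟨h1, h2⟩ := h _ hx _ hy
  constructor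
  · funext k
    change φ ((x + y) ∘ e.symm) _ = φ (x ∘ e.symm) _ + φ (y ∘ e.symm) _
    have : (x + y) ∘ e.symm = x ∘ e.symm + y ∘ e.symm := rfl
    rw [this, h1]
    rfl
  · rw [tr, tr, dot_cast, h2, dot_comp]

theorem tr_extends (e : K' ≃ K) (L : Submodule ℤ (K → ℤ)) (φ : (K → ℤ) → Fin (rank L) → ℤ)
    (z : K' → ℤ) : Extends (pull e L) (tr e L φ) z ↔ Extends L φ (z ∘ e.symm) := by
  constructor
  · rintro ⟨a, ha⟩
    refine ⟨a ∘ Fin.cast (rank_pull e L).symm, fun x hx => ?_⟩
    have hx' : x ∘ e ∈ pull e L := by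
      rw [mem_pull]
      have : (x ∘ e) ∘ e.symm = x := by funext k; simp
      rwa [this]
    have h1 := ha _ hx'
    have e1 : (x ∘ e) ∘ e.symm = x := by funext k; simp
    have e2 : (a ∘ Fin.cast (rank_pull e L).symm) ∘ Fin.cast (rank_pull e L) = a := by
      funext k; simp
    rw [← dot_cast (rank_pull e L), e2]
    rw [tr, e1] at h1
    rw [h1, ← dot_comp e, e1]
  · rintro ⟨a, ha⟩
    refine ⟨a ∘ Fin.cast (rank_pull e L), fun x hx => ?_⟩
    rw [mem_pull] at hx
    rw [tr, dot_cast, ha _ hx, dot_comp]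

theorem Glued.pull (e : K' ≃ K) {L M : Submodule ℤ (K → ℤ)} (h : Glued L M) :
    Glued (pull e L) (pull e M) := by
  obtain ⟨φ, ψ, h1, h2, h3⟩ := h
  exact ⟨tr e L φ, tr e M ψ, tr_isometry e L φ h1, tr_isometry e M ψ h2,
    fun z => by rw [tr_extends, tr_extends, h3]⟩

theorem glued_congr (e : K' ≃ K) {L M : Submodule ℤ (K → ℤ)} {L' M' : Submodule ℤ (K' → ℤ)}
    (hL : ∀ x : K → ℤ, x ∈ L ↔ x ∘ e ∈ L') (hM : ∀ x : K → ℤ, x ∈ M ↔ x ∘ e ∈ M') :
    Glued L M ↔ Glued L' M' := by
  have e1 : pull e L = L' := by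
    ext x
    rw [mem_pull, hL]
    have : (x ∘ e.symm) ∘ e = x := by funext k; simp
    rw [this]
  have e2 : pull e M = M' := by
    ext x
    rw [mem_pull, hM]
    have : (x ∘ e.symm) ∘ e = x := by funext k; simp
    rw [this]
  have e3 : pull e.symm L' = L := by
    ext x
    rw [mem_pull, hL]
    rfl
  have e4 : pull e.symm M' = M := by
    ext x
    rw [mem_pull, hM]
    rfl
  constructor
  · intro h
    have := h.pull e
    rwa [e1, e2] at this
  · intro h
    have := h.pull e.symm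
    rwa [e3, e4] at this

end

namespace Plumbing

variable {V : Type} [Fintype V] (F : Plumbing V)

/-- the vertices of colour `false` -/
abbrev VI : Type := {v // F.col v = false}

/-- the vertices of colour `true` -/
abbrev VJ : Type := {v // F.col v = true}

noncomputable instance : Fintype F.VI := by classical infer_instance

noncomputable instance : Fintype F.VJ := by classical infer_instance

open scoped Classical in
/-- the incidence matrix -/
noncomputable def mat : F.VI → F.VJ → ℤ := fun i j => if F.graph.Adj i.1 j.1 then 1 else 0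

/-- the crossings -/
def toCr : Cross (fun i : F.VI => F.wt i.1) (fun j : F.VJ => F.wt j.1) → F.Crossing :=
  Sum.elim (fun c => ⟨c.1.1, c.2⟩) (fun c => ⟨c.1.1, c.2⟩)

theorem toCr_bij : Function.Bijective F.toCr := by
  constructor
  · rintro (⟨⟨v, hv⟩, k⟩ | ⟨⟨v, hv⟩, k⟩) (⟨⟨u, hu⟩, l⟩ | ⟨⟨u, hu⟩, l⟩) h
    · simp only [toCr, Sum.elim_inl, Sigma.mk.injEq] at h
      obtain ⟨rfl, h2⟩ := h
      rw [heq_eq_eq] at h2
      rw [h2]
    · simp only [toCr, Sum.elim_inl, Sum.elim_inr, Sigma.mk.injEq] at h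
      obtain ⟨rfl, -⟩ := h
      rw [hv] at hu
      exact absurd hu (by simp)
    · simp only [toCr, Sum.elim_inl, Sum.elim_inr, Sigma.mk.injEq] at h
      obtain ⟨rfl, -⟩ := h
      rw [hv] at hu
      exact absurd hu (by simp)
    · simp only [toCr, Sum.elim_inr, Sigma.mk.injEq] at h
      obtain ⟨rfl, h2⟩ := h
      rw [heq_eq_eq] at h2
      rw [h2]
  · rintro ⟨v, k⟩
    rcases hc : F.col v with _ | _
    · exact ⟨.inl ⟨⟨v, hc⟩, k⟩, rfl⟩
    · exact ⟨.inr ⟨⟨v, hc⟩, k⟩, rfl⟩

/-- the crossings -/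
noncomputable def crEquiv :
    Cross (fun i : F.VI => F.wt i.1) (fun j : F.VJ => F.wt j.1) ≃ F.Crossing :=
  Equiv.ofBijective F.toCr F.toCr_bij

theorem sum_split (f : V → ℤ) : ∑ v, f v = ∑ i : F.VI, f i.1 + ∑ j : F.VJ, f j.1 := by
  classical
  have h1 : ∑ v with F.col v = false, f v = ∑ i : F.VI, f i.1 :=
    Finset.sum_subtype (univ.filter fun v => F.col v = false) (by simp) f
  have h2 : ∑ v with ¬ F.col v = false, f v = ∑ j : F.VJ, f j.1 :=
    Finset.sum_subtype (univ.filter fun v => ¬ F.col v = false) (by simp) f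
  rw [← h1, ← h2, Finset.sum_filter_add_sum_filter_not]

variable {F}

theorem nsum_of_false (hF : ∀ u v, F.graph.Adj u v → F.col u ≠ F.col v) (w : V → ℤ) (i : F.VI) :
    F.nsum w i.1 = ∑ j : F.VJ, F.mat i j * w j.1 := by
  classical
  rw [nsum, F.sum_split]
  have h1 : ∑ i' : F.VI, (if F.graph.Adj i.1 i'.1 then w i'.1 else 0) = 0 := by
    refine sum_eq_zero fun i' _ => if_neg fun h => ?_
    exact hF _ _ h (by rw [i.2, i'.2])
  rw [h1, zero_add]
  refine sum_congr rfl fun j _ => ?_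
  rw [mat, ite_mul, one_mul, zero_mul]

theorem nsum_of_true (hF : ∀ u v, F.graph.Adj u v → F.col u ≠ F.col v) (w : V → ℤ) (j : F.VJ) :
    F.nsum w j.1 = ∑ i : F.VI, F.mat i j * w i.1 := by
  classical
  rw [nsum, F.sum_split]
  have h1 : ∑ j' : F.VJ, (if F.graph.Adj j.1 j'.1 then w j'.1 else 0) = 0 := by
    refine sum_eq_zero fun j' _ => if_neg fun h => ?_
    exact hF _ _ h (by rw [j.2, j'.2])
  rw [h1, add_zero]
  refine sum_congr rfl fun i _ => ?_
  rw [mat, ite_mul, one_mul, zero_mul]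
  simp only [F.graph.adj_comm]

open scoped Classical in
theorem mem_cuts_iff (hF : ∀ u v, F.graph.Adj u v → F.col u ≠ F.col v) (x : F.Crossing → ℤ) :
    x ∈ F.cuts ↔ x ∘ F.crEquiv ∈
      SR.cuts F.mat (fun i : F.VI => F.wt i.1) (fun j : F.VJ => F.wt j.1) := by
  constructor
  · rintro ⟨w, hw⟩
    refine ⟨fun j => w j.1, fun j l => (hw j.1).1 j.2 l, fun i => ?_⟩
    rw [← nsum_of_false hF w i]
    exact (hw i.1).2 i.2
  · rintro ⟨w, h1, h2⟩
    refine ⟨fun v => if h : F.col v = true then w ⟨v, h⟩ else 0, fun v => ⟨fun hv k => ?_,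
      fun hv => ?_⟩⟩
    · change x ⟨v, k⟩ = (if h : F.col v = true then w ⟨v, h⟩ else 0)
      rw [dif_pos hv]
      exact h1 ⟨v, hv⟩ k
    · rw [nsum_of_false hF _ ⟨v, hv⟩]
      have h3 := h2 ⟨v, hv⟩
      have h4 : ∀ j : F.VJ, (if h : F.col j.1 = true then w ⟨j.1, h⟩ else 0) = w j := fun j =>
        dif_pos j.2
      simp only [h4]
      exact h3

open scoped Classical in
theorem mem_flows_iff (hF : ∀ u v, F.graph.Adj u v → F.col u ≠ F.col v) (x : F.Crossing → ℤ) :
    x ∈ F.flows ↔ x ∘ F.crEquiv ∈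
      SR.flows F.mat (fun i : F.VI => F.wt i.1) (fun j : F.VJ => F.wt j.1) := by
  constructor
  · rintro ⟨w, hw⟩
    refine ⟨fun j => w j.1, fun j l => (hw j.1).1 j.2 l, fun i => ?_⟩
    rw [← nsum_of_true hF w i]
    exact (hw i.1).2 i.2
  · rintro ⟨w, h1, h2⟩
    refine ⟨fun v => if h : F.col v = false then w ⟨v, h⟩ else 0, fun v => ⟨fun hv k => ?_,
      fun hv => ?_⟩⟩
    · change x ⟨v, k⟩ = (if h : F.col v = false then w ⟨v, h⟩ else 0)
      rw [dif_pos hv]
      exact h1 ⟨v, hv⟩ k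
    · rw [nsum_of_true hF _ ⟨v, hv⟩]
      have h3 := h2 ⟨v, hv⟩
      have h4 : ∀ j : F.VI, (if h : F.col j.1 = false then w ⟨j.1, h⟩ else 0) = w j := fun j =>
        dif_pos j.2
      simp only [h4]
      exact h3

theorem latticeSlice_iff (hF : ∀ u v, F.graph.Adj u v → F.col u ≠ F.col v) :
    F.LatticeSlice ↔
      SliceLattices F.mat (fun i : F.VI => F.wt i.1) (fun j : F.VJ => F.wt j.1) :=
  glued_congr F.crEquiv (mem_cuts_iff hF) (mem_flows_iff hF)

theorem adm (hF : F.IsForest) :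
    Adm (Matrix.of F.mat) (fun i : F.VI => (F.wt i.1 : ℤ)) (fun j : F.VJ => (F.wt j.1 : ℤ)) := by
  classical
  have hadj : ∀ i j, Matrix.of F.mat i j ≠ 0 → F.graph.Adj i.1 j.1 := by
    intro i j h
    by_contra h1
    exact h (if_neg h1)
  refine ⟨fun i j => ?_, fun i => by exact_mod_cast hF.three i.1,
    fun j => by exact_mod_cast hF.three j.1, fun i i' j j' hi hj h1 h2 h3 h4 => ?_⟩
  · by_cases h : F.graph.Adj i.1 j.1
    · right; left; exact if_pos h
    · left; exact if_neg h
  · exfalso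
    have a1 := hadj _ _ h1
    have a2 := hadj _ _ h2
    have a3 := hadj _ _ h3
    have a4 := hadj _ _ h4
    have hi' : i.1 ≠ i'.1 := fun h => hi (Subtype.ext h)
    have hj' : j.1 ≠ j'.1 := fun h => hj (Subtype.ext h)
    let w1 : F.graph.Walk i.1 i'.1 := .cons a1 (.cons a3.symm .nil)
    let w2 : F.graph.Walk i.1 i'.1 := .cons a2 (.cons a4.symm .nil)
    have p1 : w1.IsPath := by
      have := a1.ne
      have := a3.ne
      simp [w1, hi', a1.ne, a3.ne']
    have p2 : w2.IsPath := by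
      simp [w2, hi', a2.ne, a4.ne']
    have h5 := (hF.acyclic.subsingleton_path _ _).elim ⟨w1, p1⟩ ⟨w2, p2⟩
    have h6 : w1.support = w2.support := by
      rw [Subtype.mk.injEq] at h5
      rw [h5]
    simp [w1, w2] at h6
    exact hj' h6

open scoped Classical in
/-- a symmetry gives a pairing -/
theorem pairing_of_symmetric (hF : F.IsForest) (h : F.IsSymmetric) :
    ∃ (π : F.VI ≃ F.VJ) (c : F.VI → ℤ), IsPairing (Matrix.of F.mat)
      (fun i : F.VI => (F.wt i.1 : ℤ)) (fun j : F.VJ => (F.wt j.1 : ℤ)) π c := by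
  obtain ⟨τ, hτ⟩ := h
  obtain ⟨f, hf1, hf2, hf3, hf4⟩ := exists_sign hF.acyclic hτ
  have hfl : ∀ v, F.col v = false → F.col (τ v) = true := fun v hv => by
    have := (hτ v).color
    rw [hv] at this
    simpa using this
  have hlf : ∀ v, F.col v = true → F.col (τ v) = false := fun v hv => by
    have := (hτ v).color
    rw [hv] at this
    simpa using this
  let π : F.VI ≃ F.VJ :=
    { toFun := fun i => ⟨τ i.1, hfl i.1 i.2⟩
      invFun := fun j => ⟨τ j.1, hlf j.1 j.2⟩
      left_inv := fun i => Subtype.ext (hτ i.1).invol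
      right_inv := fun j => Subtype.ext (hτ j.1).invol }
  have hm : ∀ (i : F.VI) (k : F.VI), Matrix.of F.mat i (π k) =
      if F.graph.Adj i.1 (τ k.1) then 1 else 0 := fun i k => rfl
  refine ⟨π, fun i => f i.1, fun i => hf1 i.1, fun i => ?_, fun i k hik => ?_⟩
  · rw [hm]
    change (F.wt (τ i.1) : ℤ) = F.wt i.1 + 2 * (f i.1 * if F.graph.Adj i.1 (τ i.1) then 1 else 0)
    split_ifs with had
    · rw [hf4 i.1 had, esign]
      rcases (hτ i.1).flip had with h | h
      · rw [if_neg (by omega)]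
        push_cast [h]
        ring
      · rw [if_pos h]
        push_cast [h]
        ring
    · rw [(hτ i.1).same had]
      ring
  · rw [hm, hm]
    beta_reduce
    by_cases had : F.graph.Adj i.1 (τ k.1)
    · have had' : F.graph.Adj k.1 (τ i.1) := by
        have := (hτ i.1).adj _ had
        rw [(hτ k.1).invol] at this
        exact this.symm
      have hne : τ k.1 ≠ τ i.1 := fun h => hik (Subtype.ext (by
        rw [← (hτ i.1).invol, ← (hτ k.1).invol, h]))
      rw [if_pos had, if_pos had', hf3 i.1 (τ k.1) had hne, hf2]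
      ring
    · have had' : ¬ F.graph.Adj k.1 (τ i.1) := fun h => had (by
        have := (hτ k.1).adj _ h
        rw [(hτ i.1).invol] at this
        exact this.symm)
      rw [if_neg had, if_neg had']
      ring

open scoped Classical in
/-- a pairing gives a symmetry -/
theorem symmetric_of_pairing (hF : ∀ u v, F.graph.Adj u v → F.col u ≠ F.col v)
    (π : F.VI ≃ F.VJ) (c : F.VI → ℤ) (h : IsPairing (Matrix.of F.mat)
      (fun i : F.VI => (F.wt i.1 : ℤ)) (fun j : F.VJ => (F.wt j.1 : ℤ)) π c) :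
    F.IsSymmetric := by
  obtain ⟨hc, h1, h2⟩ := h
  have key : ∀ i k : F.VI, F.graph.Adj i.1 (π k).1 → F.graph.Adj k.1 (π i).1 := by
    intro i k hik
    by_cases he : i = k
    · subst he; exact hik
    · by_contra hcon
      have h3 := h2 i k he
      have e1 : Matrix.of F.mat i (π k) = 1 := if_pos hik
      have e2 : Matrix.of F.mat k (π i) = 0 := if_neg hcon
      rw [e1, e2] at h3
      rcases hc i with h | h <;> rw [h] at h3 <;> simp at h3
  let τ : V → V := fun v => if h : F.col v = false then (π ⟨v, h⟩).1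
    else (π.symm ⟨v, by simpa using h⟩).1
  have t1 : ∀ i : F.VI, τ i.1 = (π i).1 := fun i => dif_pos i.2
  have t2 : ∀ j : F.VJ, τ j.1 = (π.symm j).1 := fun j => by
    have : ¬ F.col j.1 = false := by rw [j.2]; simp
    exact dif_neg this
  have hsplit : ∀ v, (∃ i : F.VI, v = i.1) ∨ ∃ i : F.VI, v = (π i).1 := by
    intro v
    rcases hv : F.col v with _ | _
    · exact Or.inl ⟨⟨v, hv⟩, rfl⟩
    · exact Or.inr ⟨π.symm ⟨v, hv⟩, by simp⟩
  have t3 : ∀ i : F.VI, τ (π i).1 = i.1 := fun i => by rw [t2, Equiv.symm_apply_apply]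
  have hwt : ∀ i : F.VI, (F.graph.Adj i.1 (π i).1 → F.wt i.1 = F.wt (π i).1 + 2 ∨
      F.wt (π i).1 = F.wt i.1 + 2) ∧ (¬ F.graph.Adj i.1 (π i).1 → F.wt (π i).1 = F.wt i.1) := by
    intro i
    have h3 : (F.wt (π i).1 : ℤ) = F.wt i.1 + 2 * (c i * Matrix.of F.mat i (π i)) := h1 i
    constructor
    · intro had
      have e1 : Matrix.of F.mat i (π i) = 1 := if_pos had
      rw [e1] at h3
      rcases hc i with h | h <;> rw [h] at h3 <;> omega
    · intro had
      have e1 : Matrix.of F.mat i (π i) = 0 := if_neg had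
      rw [e1] at h3
      omega
  refine ⟨τ, fun v => ?_⟩
  rcases hsplit v with ⟨i, rfl⟩ | ⟨i, rfl⟩
  · refine ⟨?_, ?_, fun u hu => ?_, fun had => ?_, fun had => ?_⟩
    · rw [t1, t3]
    · rw [t1, i.2, (π i).2]; simp
    · rcases hsplit u with ⟨k, rfl⟩ | ⟨k, rfl⟩
      · exact absurd (by rw [i.2, k.2]) (hF _ _ hu)
      · rw [t1, t3]
        exact (key i k hu).symm
    · rw [t1] at had ⊢
      exact (hwt i).1 had
    · rw [t1] at had ⊢
      exact (hwt i).2 had
  · refine ⟨?_, ?_, fun u hu => ?_, fun had => ?_, fun had => ?_⟩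
    · rw [t3, t1]
    · rw [t3, i.2, (π i).2]; simp
    · rcases hsplit u with ⟨k, rfl⟩ | ⟨k, rfl⟩
      · rw [t1, t3]
        exact key k i hu.symm
      · exact absurd (by rw [(π i).2, (π k).2]) (hF _ _ hu)
    · rw [t3] at had ⊢
      exact ((hwt i).1 had.symm).symm
    · rw [t3] at had ⊢
      exact ((hwt i).2 (fun h => had h.symm)).symm

/-- **The classification**: the lattices of a plumbing forest satisfy the slice condition if and
only if the forest is symmetric. -/
theorem slice_iff (hF : F.IsForest) : F.LatticeSlice ↔ F.IsSymmetric := by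
  classical
  rw [latticeSlice_iff hF.proper]
  constructor
  · intro h
    obtain ⟨π, c, hp⟩ := h.pairing (adm hF)
      (fun i hi => by
        obtain ⟨u, hu⟩ := hF.four i.1 hi
        have hcol : F.col u = true := by
          have := hF.proper _ _ hu
          rw [i.2] at this
          simpa using this.symm
        refine ⟨⟨u, hcol⟩, ?_⟩
        have : F.mat i ⟨u, hcol⟩ = 1 := if_pos hu
        rw [this]
        exact one_ne_zero)
      (fun j hj => by
        obtain ⟨u, hu⟩ := hF.four j.1 hj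
        have hcol : F.col u = false := by
          have := hF.proper _ _ hu
          rw [j.2] at this
          simpa using this.symm
        refine ⟨⟨u, hcol⟩, ?_⟩
        have : F.mat ⟨u, hcol⟩ j = 1 := if_pos hu.symm
        rw [this]
        exact one_ne_zero)
    exact symmetric_of_pairing hF.proper π c hp
  · intro h
    obtain ⟨π, c, hp⟩ := pairing_of_symmetric hF h
    exact hp.slice (fun i => by have := hF.three i.1; omega)
      (fun j => by have := hF.three j.1; omega)

end Plumbing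

end Pool.Agent.H758.SF
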