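import Pool.Agent.H758.SF.SumDefs
import Pool.Agent.H758.SF.Cancel
import Pool.Agent.H758.SF.Transport

/-!
# Minimal representatives
-/

set_option autoImplicit false

namespace Pool.Agent.H758.SF.Plumbing

variable {V V' W : Type}

section acyclic

variable {G : SimpleGraph V} {H : SimpleGraph V'}

theorem reach_inl (K : SimpleGraph (V ⊕ V')) (G' : SimpleGraph V)
    (h : ∀ a y, K.Adj (.inl a) y → ∃ b, y = .inl b ∧ G'.Adj a b) {a : V} {y : V ⊕ V'}
    (hr : K.Reachable (.inl a) y) : ∃ b, y = .inl b ∧ G'.Reachable a b := by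
  rw [SimpleGraph.reachable_iff_reflTransGen] at hr
  induction hr with
  | refl => exact ⟨a, rfl, SimpleGraph.Reachable.refl a⟩
  | tail _ hab ih =>
    obtain ⟨b, rfl, hb⟩ := ih
    obtain ⟨c, rfl, hc⟩ := h _ _ hab
    exact ⟨c, rfl, hb.trans hc.reachable⟩

theorem reach_inr (K : SimpleGraph (V ⊕ V')) (G' : SimpleGraph V')
    (h : ∀ a y, K.Adj (.inr a) y → ∃ b, y = .inr b ∧ G'.Adj a b) {a : V'} {y : V ⊕ V'}
    (hr : K.Reachable (.inr a) y) : ∃ b, y = .inr b ∧ G'.Reachable a b := by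
  rw [SimpleGraph.reachable_iff_reflTransGen] at hr
  induction hr with
  | refl => exact ⟨a, rfl, SimpleGraph.Reachable.refl a⟩
  | tail _ hab ih =>
    obtain ⟨b, rfl, hb⟩ := ih
    obtain ⟨c, rfl, hc⟩ := h _ _ hab
    exact ⟨c, rfl, hb.trans hc.reachable⟩

theorem acyclic_sum (hG : G.IsAcyclic) (hH : H.IsAcyclic) : (G.sum H).IsAcyclic := by
  rw [SimpleGraph.isAcyclic_iff_forall_adj_isBridge] at hG hH ⊢
  rintro (a | a) (b | b) hab
  · have h1 := hG (by simpa using hab)
    rw [SimpleGraph.isBridge_iff] at h1 ⊢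
    intro h2
    obtain ⟨c, hc, hr⟩ := reach_inl _ (G.deleteEdges {s(a, b)}) (fun x y hxy => by
      rw [SimpleGraph.deleteEdges_adj] at hxy
      rcases y with y | y
      · refine ⟨y, rfl, ?_⟩
        rw [SimpleGraph.deleteEdges_adj]
        refine ⟨by simpa using hxy.1, fun h3 => hxy.2 ?_⟩
        rw [Set.mem_singleton_iff] at h3 ⊢
        rw [Sym2.eq_iff] at h3 ⊢
        rcases h3 with ⟨rfl, rfl⟩ | ⟨rfl, rfl⟩
        · left; exact ⟨rfl, rfl⟩
        · right; exact ⟨rfl, rfl⟩
      · exact absurd hxy.1 (by simp)) h2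
    rw [Sum.inl.injEq] at hc
    subst hc
    exact h1 hr
  · exact absurd hab (by simp)
  · exact absurd hab (by simp)
  · have h1 := hH (by simpa using hab)
    rw [SimpleGraph.isBridge_iff] at h1 ⊢
    intro h2
    obtain ⟨c, hc, hr⟩ := reach_inr _ (H.deleteEdges {s(a, b)}) (fun x y hxy => by
      rw [SimpleGraph.deleteEdges_adj] at hxy
      rcases y with y | y
      · exact absurd hxy.1 (by simp)
      · refine ⟨y, rfl, ?_⟩
        rw [SimpleGraph.deleteEdges_adj]
        refine ⟨by simpa using hxy.1, fun h3 => hxy.2 ?_⟩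
        rw [Set.mem_singleton_iff] at h3 ⊢
        rw [Sym2.eq_iff] at h3 ⊢
        rcases h3 with ⟨rfl, rfl⟩ | ⟨rfl, rfl⟩
        · left; exact ⟨rfl, rfl⟩
        · right; exact ⟨rfl, rfl⟩) h2
    rw [Sum.inr.injEq] at hc
    subst hc
    exact h1 hr

end acyclic

theorem IsForest.mirror {F : Plumbing V} (hF : F.IsForest) : F.mirror.IsForest where
  acyclic := hF.acyclic
  proper := fun u v huv => by
    have := hF.proper u v huv
    change (!F.col u) ≠ (!F.col v)
    simpa using this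
  three := hF.three
  four := hF.four

theorem IsForest.sum {F : Plumbing V} {F' : Plumbing V'} (hF : F.IsForest) (hF' : F'.IsForest) :
    (F.sum F').IsForest where
  acyclic := acyclic_sum hF.acyclic hF'.acyclic
  proper := by
    rintro (u | u) (v | v) huv
    · exact hF.proper u v (by simpa [Plumbing.sum] using huv)
    · exact absurd huv (by simp [Plumbing.sum])
    · exact absurd huv (by simp [Plumbing.sum])
    · exact hF'.proper u v (by simpa [Plumbing.sum] using huv)
  three := by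
    rintro (u | u)
    · exact hF.three u
    · exact hF'.three u
  four := by
    rintro (u | u) hu
    · obtain ⟨v, hv⟩ := hF.four u hu
      exact ⟨.inl v, by simpa [Plumbing.sum] using hv⟩
    · obtain ⟨v, hv⟩ := hF'.four u hu
      exact ⟨.inr v, by simpa [Plumbing.sum] using hv⟩

section sumlemmas

variable {F : Plumbing V} {F' : Plumbing V'}

theorem sum_adj_ll {u v : V} : (F.sum F').graph.Adj (.inl u) (.inl v) ↔ F.graph.Adj u v := by
  simp [Plumbing.sum]

theorem sum_adj_rr {u v : V'} : (F.sum F').graph.Adj (.inr u) (.inr v) ↔ F'.graph.Adj u v := by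
  simp [Plumbing.sum]

theorem sum_adj_lr {u : V} {v : V'} : ¬ (F.sum F').graph.Adj (.inl u) (.inr v) := by
  simp [Plumbing.sum]

theorem sum_adj_rl {u : V'} {v : V} : ¬ (F.sum F').graph.Adj (.inr u) (.inl v) := by
  simp [Plumbing.sum]

theorem sum_adj_l {u : V} {y : V ⊕ V'} (h : (F.sum F').graph.Adj (.inl u) y) :
    ∃ v, y = .inl v ∧ F.graph.Adj u v := by
  rcases y with y | y
  · exact ⟨y, rfl, sum_adj_ll.1 h⟩
  · exact absurd h sum_adj_lr

theorem sum_adj_r {u : V'} {y : V ⊕ V'} (h : (F.sum F').graph.Adj (.inr u) y) :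
    ∃ v, y = .inr v ∧ F'.graph.Adj u v := by
  rcases y with y | y
  · exact absurd h sum_adj_rl
  · exact ⟨y, rfl, sum_adj_rr.1 h⟩

/-- symmetric points of a sum, left -/
theorem symAt_inl {ρ : V ⊕ V' → V ⊕ V'} {τ : V → V} {v : V} (h1 : ρ (.inl v) = .inl (τ v))
    (h2 : ρ (.inl (τ v)) = .inl (τ (τ v)))
    (h3 : ∀ u, F.graph.Adj v u → ρ (.inl u) = .inl (τ u)) :
    (F.sum F').SymAt ρ (.inl v) ↔ F.SymAt τ v := by
  constructor
  · intro h
    refine ⟨?_, ?_, fun u hu => ?_, fun had => ?_, fun had => ?_⟩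
    · have := h.invol
      rw [h1, h2, Sum.inl.injEq] at this
      exact this
    · have := h.color
      rw [h1] at this
      exact this
    · have := h.adj (.inl u) (sum_adj_ll.2 hu)
      rw [h1, h3 u hu, sum_adj_ll] at this
      exact this
    · have := h.flip (by rw [h1, sum_adj_ll]; exact had)
      rw [h1] at this
      exact this
    · have := h.same (by rw [h1, sum_adj_ll]; exact had)
      rw [h1] at this
      exact this
  · intro h
    refine ⟨?_, ?_, fun y hy => ?_, fun had => ?_, fun had => ?_⟩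
    · rw [h1, h2, h.invol]
    · rw [h1]
      exact h.color
    · obtain ⟨u, rfl, hu⟩ := sum_adj_l hy
      rw [h1, h3 u hu, sum_adj_ll]
      exact h.adj u hu
    · rw [h1] at had ⊢
      exact h.flip (sum_adj_ll.1 had)
    · rw [h1] at had ⊢
      exact h.same (fun h' => had (sum_adj_ll.2 h'))

theorem symAt_inr {ρ : V ⊕ V' → V ⊕ V'} {τ : V' → V'} {v : V'} (h1 : ρ (.inr v) = .inr (τ v))
    (h2 : ρ (.inr (τ v)) = .inr (τ (τ v)))
    (h3 : ∀ u, F'.graph.Adj v u → ρ (.inr u) = .inr (τ u)) :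
    (F.sum F').SymAt ρ (.inr v) ↔ F'.SymAt τ v := by
  constructor
  · intro h
    refine ⟨?_, ?_, fun u hu => ?_, fun had => ?_, fun had => ?_⟩
    · have := h.invol
      rw [h1, h2, Sum.inr.injEq] at this
      exact this
    · have := h.color
      rw [h1] at this
      exact this
    · have := h.adj (.inr u) (sum_adj_rr.2 hu)
      rw [h1, h3 u hu, sum_adj_rr] at this
      exact this
    · have := h.flip (by rw [h1, sum_adj_rr]; exact had)
      rw [h1] at this
      exact this
    · have := h.same (by rw [h1, sum_adj_rr]; exact had)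
      rw [h1] at this
      exact this
  · intro h
    refine ⟨?_, ?_, fun y hy => ?_, fun had => ?_, fun had => ?_⟩
    · rw [h1, h2, h.invol]
    · rw [h1]
      exact h.color
    · obtain ⟨u, rfl, hu⟩ := sum_adj_r hy
      rw [h1, h3 u hu, sum_adj_rr]
      exact h.adj u hu
    · rw [h1] at had ⊢
      exact h.flip (sum_adj_rr.1 had)
    · rw [h1] at had ⊢
      exact h.same (fun h' => had (sum_adj_rr.2 h'))

theorem symAt_mirror {τ : V → V} {v : V} : F.mirror.SymAt τ v ↔ F.SymAt τ v := by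
  constructor
  · intro h
    refine ⟨h.invol, ?_, h.adj, h.flip, h.same⟩
    have := h.color
    change (!F.col (τ v)) ≠ (!F.col v) at this
    simpa using this
  · intro h
    refine ⟨h.invol, ?_, h.adj, h.flip, h.same⟩
    have := h.color
    change (!F.col (τ v)) ≠ (!F.col v)
    simpa using this

end sumlemmas

/-- A part of the vertices whose complement is a symmetric union of components. -/
def Core (F : Plumbing V) (S : Set V) (τ : V → V) : Prop :=
  ∀ v, v ∉ S → τ v ∉ S ∧ F.SymAt τ v ∧ ∀ w ∈ S, ¬ F.graph.Adj v w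

/-- the sub-plumbing on `S` -/
def restrict (F : Plumbing V) (S : Set V) : Plumbing S where
  graph := F.graph.induce S
  col := fun v => F.col v
  wt := fun v => F.wt v

theorem IsForest.restrict {F : Plumbing V} (hF : F.IsForest) {S : Set V} {τ : V → V}
    (hS : F.Core S τ) : (F.restrict S).IsForest where
  acyclic := hF.acyclic.induce S
  proper := fun u v huv => hF.proper u v huv
  three := fun v => hF.three v
  four := by
    intro v hv
    obtain ⟨u, hu⟩ := hF.four v hv
    have huS : u ∈ S := by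
      by_contra h
      exact (hS u h).2.2 v v.2 hu.symm
    exact ⟨⟨u, huS⟩, hu⟩

/-- A minimal core. -/
theorem exists_minimal_core [Finite V] (F : Plumbing V) : ∃ (S : Set V) (τ : V → V), F.Core S τ ∧
    ∀ (S' : Set V) (τ' : V → V), F.Core S' τ' → S' ⊆ S → S' = S := by
  classical
  have hfin : {S : Set V | ∃ τ, F.Core S τ}.Nonempty :=
    ⟨Set.univ, id, fun v hv => absurd (Set.mem_univ v) hv⟩
  obtain ⟨S, hS⟩ := Set.Finite.exists_minimal (Set.toFinite {S : Set V | ∃ τ, F.Core S τ}) hfin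
  obtain ⟨⟨τ, hτ⟩, hmin⟩ := hS
  exact ⟨S, τ, hτ, fun S' τ' h' hle => le_antisymm hle (hmin ⟨τ', h'⟩ hle)⟩

/-- **Easy direction.** -/
theorem symmetric_of_below {F : Plumbing V} {F' : Plumbing V'} {S : Set V} {τ : V → V}
    (hS : F.Core S τ) (h : (F.restrict S).Below F') : (F.sum F'.mirror).IsSymmetric := by
  classical
  obtain ⟨f, τ', hf, hcw, hadj, hrest⟩ := h
  let ρ : V ⊕ V' → V ⊕ V' := fun x => match x with
    | .inl v => if h : v ∈ S then .inr (f ⟨v, h⟩) else .inl (τ v)
    | .inr v => if h : ∃ w, f w = v then .inl h.choose.1 else .inr (τ' v)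
  have r1 : ∀ w : S, ρ (.inl w.1) = .inr (f w) := fun w => dif_pos w.2
  have r2 : ∀ v, v ∉ S → ρ (.inl v) = .inl (τ v) := fun v hv => dif_neg hv
  have r3 : ∀ w : S, ρ (.inr (f w)) = .inl w.1 := by
    intro w
    have h1 : ∃ w', f w' = f w := ⟨w, rfl⟩
    have h2 : ρ (.inr (f w)) = .inl h1.choose.1 := dif_pos h1
    rw [h2]
    have := hf h1.choose_spec
    rw [this]
  have r4 : ∀ v, v ∉ Set.range f → ρ (.inr v) = .inr (τ' v) := fun v hv => dif_neg hv
  refine ⟨ρ, ?_⟩
  rintro (v | v)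
  · by_cases hv : v ∈ S
    · have e1 := r1 ⟨v, hv⟩
      have e3 := r3 ⟨v, hv⟩
      refine ⟨?_, ?_, fun y hy => ?_, fun had => ?_, fun had => ?_⟩
      · rw [e1, e3]
      · rw [e1]
        change (!F'.col (f ⟨v, hv⟩)) ≠ F.col v
        have : F'.col (f ⟨v, hv⟩) = F.col v := (hcw ⟨v, hv⟩).1
        rw [this]
        simp
      · obtain ⟨u, rfl, hu⟩ := sum_adj_l hy
        have huS : u ∈ S := by
          by_contra h'
          exact (hS u h').2.2 v hv hu.symm
        rw [e1, r1 ⟨u, huS⟩, sum_adj_rr]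
        exact (hadj ⟨v, hv⟩ ⟨u, huS⟩).2 hu
      · rw [e1] at had
        exact absurd had sum_adj_lr
      · rw [e1]
        exact (hcw ⟨v, hv⟩).2
    · refine (symAt_inl (τ := τ) (r2 v hv) (r2 _ (hS v hv).1) (fun u hu => r2 u fun h' => ?_)).2
        (hS v hv).2.1
      exact (hS v hv).2.2 u h' hu
  · by_cases hv : v ∈ Set.range f
    · obtain ⟨w, rfl⟩ := hv
      have e1 := r1 w
      have e3 := r3 w
      refine ⟨?_, ?_, fun y hy => ?_, fun had => ?_, fun had => ?_⟩
      · rw [e3, e1]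
      · rw [e3]
        change F.col w.1 ≠ (!F'.col (f w))
        have : F'.col (f w) = F.col w.1 := (hcw w).1
        rw [this]
        simp
      · obtain ⟨u, rfl, hu⟩ := sum_adj_r hy
        have huS : u ∈ Set.range f := by
          by_contra h'
          exact (hrest u h').2.2 w hu.symm
        obtain ⟨u', rfl⟩ := huS
        rw [e3, r3 u', sum_adj_ll]
        exact (hadj w u').1 hu
      · rw [e3] at had
        exact absurd had sum_adj_rl
      · rw [e3]
        exact (hcw w).2.symm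
    · refine (symAt_inr (τ := τ') (r4 v hv) (r4 _ (hrest v hv).1)
        (fun u hu => r4 u fun h' => ?_)).2 (symAt_mirror.2 (hrest v hv).2.1)
      obtain ⟨w, rfl⟩ := h'
      exact (hrest v hv).2.2 w hu

/-- **Hard direction.** -/
theorem below_of_symmetric [Finite V] [Finite V'] {F : Plumbing V} {F' : Plumbing V'} {S : Set V}
    {τ : V → V} (hS : F.Core S τ)
    (hmin : ∀ (S' : Set V) (τ' : V → V), F.Core S' τ' → S' ⊆ S → S' = S)
    (h : (F.sum F'.mirror).IsSymmetric) : (F.restrict S).Below F' := by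
  classical
  obtain ⟨ρ, hρ⟩ := h
  let D : Set (V ⊕ V') := {x | ∃ v, v ∉ S ∧ x = .inl v}
  let τ₁ : V ⊕ V' → V ⊕ V' := Sum.map τ id
  have hDl : ∀ v, (.inl v : V ⊕ V') ∈ D ↔ v ∉ S := by
    intro v
    constructor
    · rintro ⟨u, hu, he⟩
      rw [Sum.inl.injEq] at he
      subst he
      exact hu
    · intro hv
      exact ⟨v, hv, rfl⟩
  have hDr : ∀ v, (.inr v : V ⊕ V') ∉ D := by
    rintro v ⟨u, -, he⟩
    exact absurd he (by simp)
  obtain ⟨σ, hσ⟩ := cancel ρ τ₁ D hρ
    (by
      rintro _ ⟨v, hv, rfl⟩ y hy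
      obtain ⟨u, rfl, hu⟩ := sum_adj_l hy
      rw [hDl]
      exact fun hu' => (hS v hv).2.2 u hu' hu)
    (by
      rintro _ ⟨v, hv, rfl⟩
      refine ⟨(hDl _).2 (hS v hv).1, ?_⟩
      exact (symAt_inl (τ := τ) rfl rfl fun _ _ => rfl).2 (hS v hv).2.1)
  have hσl : ∀ v ∈ S, σ (.inl v) ∉ D ∧ (F.sum F'.mirror).SymAt σ (.inl v) := fun v hv =>
    hσ _ fun h' => ((hDl v).1 h') hv
  have hσr : ∀ v, σ (.inr v) ∉ D ∧ (F.sum F'.mirror).SymAt σ (.inr v) := fun v => hσ _ (hDr v)
  -- the elements of `S` paired inside `S`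
  let M : Set V := {v | v ∈ S ∧ ∃ u, σ (.inl v) = .inl u}
  have hMσ : ∀ v ∈ M, ∃ u ∈ M, σ (.inl v) = .inl u ∧ σ (.inl u) = .inl v := by
    rintro v ⟨hv, u, hu⟩
    have h1 := (hσl v hv).1
    rw [hu, hDl, not_not] at h1
    have h2 := (hσl v hv).2.invol
    rw [hu] at h2
    exact ⟨u, ⟨h1, v, h2⟩, hu, h2⟩
  have hadjS : ∀ v u, v ∈ S → F.graph.Adj v u → u ∈ S := by
    intro v u hv huv
    by_contra hu
    exact (hS u hu).2.2 v hv huv.symm
  have hMadj : ∀ v u, v ∈ M → F.graph.Adj v u → u ∈ M := by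
    rintro v u ⟨hv, w, hw⟩ huv
    refine ⟨hadjS v u hv huv, ?_⟩
    have h1 := (hσl v hv).2.adj (.inl u) (sum_adj_ll.2 huv)
    rw [hw] at h1
    obtain ⟨x, hx, -⟩ := sum_adj_l h1
    exact ⟨x, hx⟩
  have hMempty : ∀ v, v ∉ M := by
    choose! m hm using hMσ
    let τ₂ : V → V := fun v => if v ∈ S then m v else τ v
    have hcore : F.Core (S \ M) τ₂ := by
      intro v hv
      by_cases hvS : v ∈ S
      · have hvM : v ∈ M := by
          by_contra h'
          exact hv ⟨hvS, h'⟩
        have e1 : τ₂ v = m v := if_pos hvS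
        have e0 : ∀ w ∈ M, τ₂ w = m w := fun w hw => if_pos hw.1
        refine ⟨?_, ?_, fun w hw hvw => hw.2 (hMadj v w hvM hvw)⟩
        · rw [e1]
          exact fun h' => h'.2 (hm v hvM).1
        · refine (symAt_inl (F' := F'.mirror) (ρ := σ) (τ := τ₂) ?_ ?_ fun u hu => ?_).1
            (hσl v hvS).2
          · rw [e1]; exact (hm v hvM).2.1
          · rw [e1, e0 _ (hm v hvM).1]
            exact (hm _ (hm v hvM).1).2.1
          · have huM := hMadj v u hvM hu
            rw [e0 u huM]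
            exact (hm u huM).2.1
      · have e1 : ∀ u, u ∉ S → τ₂ u = τ u := fun u hu => if_neg hu
        have h1 := hS v hvS
        refine ⟨?_, ?_, fun w hw => h1.2.2 w hw.1⟩
        · rw [e1 v hvS]
          exact fun h' => h1.1 h'.1
        · have g := h1.2.1
          refine ⟨?_, ?_, fun u hu => ?_, fun had => ?_, fun had => ?_⟩
          · rw [e1 v hvS, e1 _ h1.1]; exact g.invol
          · rw [e1 v hvS]; exact g.color
          · have huS : u ∉ S := fun h' => h1.2.2 u h' hu
            rw [e1 v hvS, e1 u huS]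
            exact g.adj u hu
          · rw [e1 v hvS] at had ⊢; exact g.flip had
          · rw [e1 v hvS] at had ⊢; exact g.same had
    have h2 := hmin _ τ₂ hcore Set.diff_subset
    intro v hv
    have h3 : v ∈ S := hv.1
    rw [← h2] at h3
    exact h3.2 hv
  -- the embedding
  have hf : ∀ w : S, ∃ v, σ (.inl w.1) = .inr v := by
    intro w
    rcases hc : σ (.inl w.1) with u | u
    · exact absurd ⟨w.2, u, hc⟩ (hMempty w.1)
    · exact ⟨u, rfl⟩
  choose f hf using hf
  have hfinv : ∀ w : S, σ (.inr (f w)) = .inl w.1 := by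
    intro w
    rw [← hf w]
    exact (hσl w.1 w.2).2.invol
  have hrange : ∀ v u, σ (.inr v) = .inl u → ∃ hu : u ∈ S, f ⟨u, hu⟩ = v := by
    intro v u hvu
    have h1 := (hσr v).1
    rw [hvu, hDl, not_not] at h1
    refine ⟨h1, ?_⟩
    have h2 := (hσr v).2.invol
    rw [hvu, hf ⟨u, h1⟩, Sum.inr.injEq] at h2
    exact h2
  have hrest : ∀ v, v ∉ Set.range f → ∃ u, σ (.inr v) = .inr u := by
    intro v hv
    rcases hc : σ (.inr v) with u | u
    · obtain ⟨hu, he⟩ := hrange v u hc
      exact absurd ⟨_, he⟩ hv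
    · exact ⟨u, rfl⟩
  choose! τ' hτ' using hrest
  have hτ'r : ∀ v, v ∉ Set.range f → τ' v ∉ Set.range f := by
    rintro v hv ⟨w, hw⟩
    have h1 := (hσr v).2.invol
    rw [hτ' v hv, ← hw, hfinv] at h1
    exact absurd h1 (by simp)
  have hadjr : ∀ v, v ∉ Set.range f → ∀ u, F'.graph.Adj v u → u ∉ Set.range f := by
    rintro v hv _ hvu ⟨w, rfl⟩
    have h1 := (hσr v).2.adj (.inr (f w)) (sum_adj_rr.2 hvu)
    rw [hτ' v hv, hfinv] at h1
    exact sum_adj_rl h1
  refine ⟨f, τ', fun w w' hww => ?_, fun w => ⟨?_, ?_⟩, fun u w => ⟨fun had => ?_, fun had => ?_⟩,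
    fun v hv => ⟨hτ'r v hv, ?_, fun w hw => hadjr v hv _ hw ⟨w, rfl⟩⟩⟩
  · have h1 := hfinv w
    rw [hww, hfinv w', Sum.inl.injEq] at h1
    exact Subtype.ext h1.symm
  · have h1 := (hσl w.1 w.2).2.color
    rw [hf w] at h1
    change (!F'.col (f w)) ≠ F.col w.1 at h1
    change F'.col (f w) = F.col w.1
    revert h1
    cases F'.col (f w) <;> cases F.col w.1 <;> simp
  · have h1 := (hσl w.1 w.2).2.same
    rw [hf w] at h1
    exact h1 sum_adj_lr
  · have h1 := (hσr (f u)).2.adj (.inr (f w)) (sum_adj_rr.2 had)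
    rw [hfinv, hfinv, sum_adj_ll] at h1
    exact h1
  · have h1 := (hσl u.1 u.2).2.adj (.inl w.1) (sum_adj_ll.2 had)
    rw [hf, hf, sum_adj_rr] at h1
    exact h1
  · refine symAt_mirror.1 ((symAt_inr (F := F) (F' := F'.mirror) (ρ := σ) (τ := τ') (hτ' v hv)
      (hτ' _ (hτ'r v hv)) fun u hu => hτ' u (hadjr v hv u hu)).1 (hσr v).2)

/-- **Minima.** -/
theorem exists_minimum [Fintype V] (F : Plumbing V) (hF : F.IsForest) :
    ∃ (W : Type) (_ : Fintype W) (R : Plumbing W), R.IsForest ∧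
      ∀ (V' : Type) [Fintype V'] (F' : Plumbing V'), F'.IsForest →
        ((F.sum F'.mirror).LatticeSlice ↔ R.Below F') := by
  classical
  obtain ⟨S, τ, hS, hmin⟩ := exists_minimal_core F
  refine ⟨S, inferInstance, F.restrict S, hF.restrict hS, fun V' _ F' hF' => ?_⟩
  rw [slice_iff (hF.sum hF'.mirror)]
  exact ⟨below_of_symmetric hS hmin, symmetric_of_below hS⟩

end Pool.Agent.H758.SF.Plumbing
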