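import Pool.Agent.H758.SF.Defs

/-!
Signs on symmetric forests.
-/

set_option autoImplicit false

namespace Pool.Agent.H758.SF.Plumbing

variable {V : Type} {F : Plumbing V} {τ : V → V}

section

variable (hF : F.graph.IsAcyclic) (hτ : ∀ v, F.SymAt τ v)

include hτ in
theorem tau_reach {u v : V} (h : F.graph.Reachable u v) : F.graph.Reachable (τ u) (τ v) := by
  let f : F.graph →g F.graph := ⟨τ, fun {a b} h' => (hτ a).adj b h'⟩
  exact h.map f

include hτ in
theorem tau_ne (v : V) : τ v ≠ v := fun h => (hτ v).color (by rw [h])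

include hF hτ in
/-- If `τ` preserves a component then it reverses an edge of it. -/
theorem exists_flip_aux (n : ℕ) : ∀ (v : V) (p : F.graph.Walk v (τ v)), p.IsPath → p.length = n →
    ∃ u, F.graph.Reachable v u ∧ F.graph.Adj u (τ u) := by
  induction n using Nat.strong_induction_on with
  | _ n ih =>
    intro v p hp hn
    let f : F.graph →g F.graph := ⟨τ, fun {a b} h' => (hτ a).adj b h'⟩
    have hf : Function.Injective f := fun a b hab => by
      have h1 : τ a = τ b := hab
      rw [← (hτ a).invol, ← (hτ b).invol, h1]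
    rcases Nat.lt_or_ge n 2 with h2 | h2
    · interval_cases n
      · exact absurd (SimpleGraph.Walk.eq_of_length_eq_zero hn).symm (tau_ne hτ v)
      · exact ⟨v, SimpleGraph.Reachable.refl v, SimpleGraph.Walk.adj_of_length_eq_one hn⟩
    · -- the reversed path
      let q : F.graph.Walk v (τ v) := ((p.map f).reverse).copy (hτ v).invol rfl
      have hq : q.IsPath := by
        simp only [q, SimpleGraph.Walk.isPath_copy]
        exact (hp.map hf).reverse
      have hpq : p = q := by
        have := (hF.subsingleton_path _ _).elim ⟨p, hp⟩ ⟨q, hq⟩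
        rwa [Subtype.mk.injEq] at this
      have h3 : p.getVert 1 = τ (p.getVert (n - 1)) := by
        conv_lhs => rw [hpq]
        simp only [q, SimpleGraph.Walk.getVert_copy, SimpleGraph.Walk.getVert_reverse,
          SimpleGraph.Walk.getVert_map, SimpleGraph.Walk.length_map, hn]
        rfl
      have h4 : τ (p.getVert 1) = p.getVert (n - 1) := by rw [h3, (hτ _).invol]
      -- the path in the middle
      let m := (p.drop 1).take (n - 2)
      have hm : m.IsPath := (hp.drop 1).take (n - 2)
      have hml : m.length = n - 2 := by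
        simp only [m, SimpleGraph.Walk.take_length, SimpleGraph.Walk.drop_length, hn]
        omega
      have hme : (p.drop 1).getVert (n - 2) = τ (p.getVert 1) := by
        rw [h4, SimpleGraph.Walk.drop_getVert]
        congr 1
        omega
      obtain ⟨u, hu1, hu2⟩ := ih (n - 2) (by omega) (p.getVert 1) (m.copy rfl hme)
        (by rw [SimpleGraph.Walk.isPath_copy]; exact hm)
        (by rw [SimpleGraph.Walk.length_copy]; exact hml)
      refine ⟨u, ?_, hu2⟩
      have h5 : F.graph.Reachable v (p.getVert 1) := (p.take 1).reachable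
      exact h5.trans hu1

include hF hτ in
theorem exists_flip {v : V} (h : F.graph.Reachable v (τ v)) :
    ∃ u, F.graph.Reachable v u ∧ F.graph.Adj u (τ u) := by
  classical
  obtain ⟨p, hp⟩ := h.exists_isPath
  exact exists_flip_aux hF hτ p.length v p hp rfl

/-- the forest with the edge `{v₀, τ v₀}` removed -/
def cutG (F : Plumbing V) (τ : V → V) (v₀ : V) : SimpleGraph V :=
  F.graph.deleteEdges {s(v₀, τ v₀)}

theorem cutG_adj {v₀ u v : V} :
    (cutG F τ v₀).Adj u v ↔ F.graph.Adj u v ∧ s(u, v) ≠ s(v₀, τ v₀) := by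
  rw [cutG, SimpleGraph.deleteEdges_adj, Set.mem_singleton_iff]

include hτ in
theorem tau_cutG {v₀ u v : V} (huv : (cutG F τ v₀).Adj u v) :
    (cutG F τ v₀).Adj (τ u) (τ v) := by
  rw [cutG_adj] at huv ⊢
  refine ⟨(hτ u).adj v huv.1, fun he => huv.2 ?_⟩
  rw [Sym2.eq_iff] at he ⊢
  rcases he with ⟨h1, h2⟩ | ⟨h1, h2⟩
  · right
    exact ⟨by rw [← (hτ u).invol, h1], by rw [← (hτ v).invol, h2, (hτ v₀).invol]⟩
  · left
    exact ⟨by rw [← (hτ u).invol, h1, (hτ v₀).invol], by rw [← (hτ v).invol, h2]⟩

include hτ in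
theorem tau_cutG_reach {v₀ u v : V} (huv : (cutG F τ v₀).Reachable u v) :
    (cutG F τ v₀).Reachable (τ u) (τ v) := by
  let f : cutG F τ v₀ →g cutG F τ v₀ := ⟨τ, fun h' => tau_cutG hτ h'⟩
  exact huv.map f

theorem cutG_le (F : Plumbing V) (τ : V → V) (v₀ : V) : cutG F τ v₀ ≤ F.graph :=
  SimpleGraph.deleteEdges_le _

include hF hτ in
/-- exactly one of `v`, `τ v` lies on the side of `v₀` -/
theorem side_xor {v₀ : V} (h0 : F.graph.Adj v₀ (τ v₀)) {v : V} (hv : F.graph.Reachable v₀ v) :
    (cutG F τ v₀).Reachable v₀ (τ v) ↔ ¬ (cutG F τ v₀).Reachable v₀ v := by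
  have hbr : ¬ (cutG F τ v₀).Reachable v₀ (τ v₀) := by
    have := SimpleGraph.isAcyclic_iff_forall_isBridge.1 hF (e := s(v₀, τ v₀)) h0
    exact SimpleGraph.isBridge_iff.1 this
  constructor
  · intro h1 h2
    exact hbr (h1.trans (tau_cutG_reach hτ h2).symm)
  · intro h1
    have hall : ∀ v, F.graph.Reachable v₀ v → (cutG F τ v₀).Reachable v₀ v ∨
        (cutG F τ v₀).Reachable (τ v₀) v := by
      intro v hv
      rw [SimpleGraph.reachable_iff_reflTransGen] at hv
      induction hv with
      | refl => left; rfl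
      | tail _ hab ih =>
        rename_i a b _
        by_cases he : s(a, b) = s(v₀, τ v₀)
        · rw [Sym2.eq_iff] at he
          rcases he with ⟨-, h2⟩ | ⟨-, h2⟩
          · right; rw [h2]
          · left; rw [h2]
        · have h2 : (cutG F τ v₀).Adj a b := cutG_adj.2 ⟨hab, he⟩
          rcases ih with h3 | h3
          · left; exact h3.trans h2.reachable
          · right; exact h3.trans h2.reachable
    rcases hall v hv with h2 | h2
    · exact absurd h2 h1
    · have h3 := tau_cutG_reach hτ h2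
      rwa [(hτ v₀).invol] at h3

include hF hτ in
/-- the reversed edge of a component is unique -/
theorem flip_unique {v₀ v : V} (h0 : F.graph.Adj v₀ (τ v₀)) (hv : F.graph.Adj v (τ v))
    (hr : F.graph.Reachable v₀ v) : v = v₀ ∨ v = τ v₀ := by
  by_contra hne
  push Not at hne
  have h1 : (cutG F τ v₀).Adj v (τ v) := by
    rw [cutG_adj]
    refine ⟨hv, fun he => ?_⟩
    rw [Sym2.eq_iff] at he
    rcases he with ⟨h2, -⟩ | ⟨h2, -⟩
    · exact hne.1 h2
    · exact hne.2 h2
  have h2 := side_xor hF hτ h0 hr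
  by_cases h3 : (cutG F τ v₀).Reachable v₀ v
  · exact (h2.1 (h3.trans h1.reachable)) h3
  · exact h3 ((h2.2 h3).trans h1.reachable.symm)

end

/-- The prescribed sign at a reversed edge. -/
def esign (F : Plumbing V) (τ : V → V) (v : V) : ℤ := if F.wt (τ v) = F.wt v + 2 then 1 else -1

theorem esign_tau (hτ : ∀ v, F.SymAt τ v) {v : V} (hv : F.graph.Adj v (τ v)) :
    esign F τ (τ v) = - esign F τ v := by
  rw [esign, esign, (hτ v).invol]
  rcases (hτ v).flip hv with h | h
  · rw [if_pos h, if_neg (by omega)]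
    norm_num
  · rw [if_neg (by omega), if_pos h]

/-- The existence of signs. -/
theorem exists_sign (hF : F.graph.IsAcyclic) (hτ : ∀ v, F.SymAt τ v) :
    ∃ f : V → ℤ, (∀ v, f v = 1 ∨ f v = -1) ∧ (∀ v, f (τ v) = - f v) ∧
      (∀ u v, F.graph.Adj u v → v ≠ τ u → f u = f v) ∧
      ∀ v, F.graph.Adj v (τ v) → f v = esign F τ v := by
  classical
  -- a linear order on the components
  obtain ⟨lt, hlt⟩ : ∃ lt : F.graph.ConnectedComponent → F.graph.ConnectedComponent → Prop,
      IsWellOrder _ lt := ⟨WellOrderingRel, inferInstance⟩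
  let comp : V → F.graph.ConnectedComponent := F.graph.connectedComponentMk
  have hcomp : ∀ {u v}, comp u = comp v ↔ F.graph.Reachable u v := SimpleGraph.ConnectedComponent.eq
  let E : F.graph.ConnectedComponent → V → Prop := fun C v₀ => comp v₀ = C ∧ F.graph.Adj v₀ (τ v₀)
  let f : V → ℤ := fun v =>
    if h : ∃ v₀, E (comp v) v₀ then
      (if (cutG F τ h.choose).Reachable h.choose v then esign F τ h.choose
        else - esign F τ h.choose)
    else if lt (comp v) (comp (τ v)) then 1 else -1
  have he : ∀ v, esign F τ v = 1 ∨ esign F τ v = -1 := fun v => by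
    rw [esign]; split_ifs <;> simp
  -- the two cases
  have hcase : ∀ C : F.graph.ConnectedComponent, (∃ v₀, E C v₀ ∧ ∀ v, comp v = C →
      f v = if (cutG F τ v₀).Reachable v₀ v then esign F τ v₀ else - esign F τ v₀) ∨
      (¬ (∃ v₀, E C v₀) ∧ ∀ v, comp v = C →
        f v = if lt (comp v) (comp (τ v)) then 1 else -1) := by
    intro C
    by_cases h : ∃ v₀, E C v₀
    · left
      refine ⟨h.choose, h.choose_spec, fun v hv => ?_⟩
      subst hv
      exact dif_pos h
    · right
      refine ⟨h, fun v hv => ?_⟩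
      subst hv
      exact dif_neg h
  have htr : ∀ {u v}, comp u = comp v → comp (τ u) = comp (τ v) := fun h =>
    hcomp.2 (tau_reach hτ (hcomp.1 h))
  refine ⟨f, fun v => ?_, fun v => ?_, fun u v huv hne => ?_, fun v hv => ?_⟩
  · rcases hcase (comp v) with ⟨v₀, -, h⟩ | ⟨-, h⟩
    · rw [h v rfl]
      have := he v₀
      split_ifs <;> omega
    · rw [h v rfl]
      split_ifs <;> simp
  · rcases hcase (comp v) with ⟨v₀, ⟨hv₀, ha⟩, h⟩ | ⟨hno, h⟩
    · have hc : comp (τ v) = comp v := by
        rw [← hv₀]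
        have h1 : comp (τ v) = comp (τ v₀) := htr hv₀.symm
        rw [h1]
        exact hcomp.2 ha.reachable.symm
      rw [h v rfl, h (τ v) hc]
      have h2 := side_xor hF hτ ha (hcomp.1 hv₀)
      by_cases h3 : (cutG F τ v₀).Reachable v₀ v
      · rw [if_pos h3, if_neg (fun h4 => (h2.1 h4) h3)]
      · rw [if_neg h3, if_pos (h2.2 h3), neg_neg]
    · have hne : comp v ≠ comp (τ v) := by
        intro h1
        obtain ⟨u, hu1, hu2⟩ := exists_flip hF hτ (hcomp.1 h1)
        exact hno ⟨u, hcomp.2 hu1.symm, hu2⟩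
      have hno' : ¬ ∃ v₀, E (comp (τ v)) v₀ := by
        rintro ⟨v₀, hv₀, ha⟩
        refine hno ⟨τ v₀, ?_, ?_⟩
        · have := htr hv₀
          rwa [(hτ v).invol] at this
        · rw [(hτ v₀).invol]
          exact ha.symm
      rcases hcase (comp (τ v)) with ⟨v₀, hE, -⟩ | ⟨-, h'⟩
      · exact absurd ⟨v₀, hE⟩ hno'
      · rw [h v rfl, h' (τ v) rfl, (hτ v).invol]
        rcases trichotomous_of lt (comp v) (comp (τ v)) with h1 | h1 | h1
        · rw [if_pos h1, if_neg (asymm_of lt h1)]
        · exact absurd h1 hne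
        · rw [if_pos h1, if_neg (asymm_of lt h1)]
          norm_num
  · have hc : comp u = comp v := hcomp.2 huv.reachable
    rcases hcase (comp v) with ⟨v₀, ⟨hv₀, ha⟩, h⟩ | ⟨hno, h⟩
    · rw [h v rfl, h u hc]
      have h1 : (cutG F τ v₀).Adj u v := by
        rw [cutG_adj]
        refine ⟨huv, fun he => ?_⟩
        rw [Sym2.eq_iff] at he
        rcases he with ⟨h2, h3⟩ | ⟨h2, h3⟩
        · exact hne (by rw [h2, h3])
        · exact hne (by rw [h2, h3, (hτ v₀).invol])
      have h2 : (cutG F τ v₀).Reachable v₀ u ↔ (cutG F τ v₀).Reachable v₀ v :=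
        ⟨fun h => h.trans h1.reachable, fun h => h.trans h1.reachable.symm⟩
      simp only [h2]
    · rw [h v rfl, h u hc, hc, htr hc]
  · rcases hcase (comp v) with ⟨v₀, ⟨hv₀, ha⟩, h⟩ | ⟨hno, h⟩
    · rw [h v rfl]
      rcases flip_unique hF hτ ha hv (hcomp.1 hv₀) with h1 | h1
      · subst h1
        rw [if_pos (SimpleGraph.Reachable.refl _)]
      · rw [h1, if_neg, esign_tau hτ ha]
        have := SimpleGraph.isAcyclic_iff_forall_isBridge.1 hF (e := s(v₀, τ v₀)) ha
        exact SimpleGraph.isBridge_iff.1 this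
    · exact absurd ⟨v, rfl, hv⟩ hno

end Pool.Agent.H758.SF.Plumbing
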