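import Pool.Agent.H758.SF.Defs

/-!
# Sums and mirror images of plumbing graphs
-/

set_option autoImplicit false

namespace Pool.Agent.H758.SF.Plumbing

variable {V V' W : Type}

/-- The disjoint union of two plumbing graphs: the connected sum of the links. -/
def sum (F : Plumbing V) (F' : Plumbing V') : Plumbing (V ⊕ V') where
  graph := F.graph.sum F'.graph
  col := Sum.elim F.col F'.col
  wt := Sum.elim F.wt F'.wt

/-- The colours are exchanged: the mirror image. -/
def mirror (F : Plumbing V) : Plumbing V where
  graph := F.graph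
  col := fun v => !F.col v
  wt := F.wt

/-- `F` is the disjoint union of a copy of `R` (the image of `f`) and a symmetric plumbing graph
(the rest, with the symmetry `τ`). -/
def Below (R : Plumbing W) (F : Plumbing V) : Prop :=
  ∃ (f : W → V) (τ : V → V), Function.Injective f ∧
    (∀ w, F.col (f w) = R.col w ∧ F.wt (f w) = R.wt w) ∧
    (∀ u w, F.graph.Adj (f u) (f w) ↔ R.graph.Adj u w) ∧
    ∀ v, v ∉ Set.range f → τ v ∉ Set.range f ∧ F.SymAt τ v ∧ ∀ w, ¬ F.graph.Adj v (f w)

end Pool.Agent.H758.SF.Plumbing
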